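import Pool.Agent.W231.V.Quad

set_option autoImplicit false

/-!
Local terms of heights; values of the elements of powers of the maximal ideal of a point.
-/

namespace Pool.Agent.J4.H51.Vo

open NumberField IsDedekindDomain Height Finset Pool.Agent.W231.V

variable {K : Type*} [Field K] [NumberField K]

/-- The finite part of the height of a vector with a coordinate equal to one. -/
lemma sum_local_le {ι : Type*} [Finite ι] (w : ι → K) (i₀ : ι) (h₀ : w i₀ = 1)
    (T : Finset (HeightOneSpectrum (𝓞 K))) :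
    ∑ v ∈ T, Real.log (⨆ i, fv v (w i)) ≤ logHeight w := by
  classical
  have := Fintype.ofFinite ι
  have : Nonempty ι := ⟨i₀⟩
  have hw : w ≠ 0 := by
    intro h
    have := congrFun h i₀
    rw [h₀] at this
    exact one_ne_zero this
  rw [logHeight_eq_log_mulHeight, NumberField.mulHeight_eq hw]
  set g : HeightOneSpectrum (𝓞 K) → ℝ := fun v => ⨆ j, fv v (w j) with hg
  have hg1 : ∀ v, 1 ≤ g v := fun v => by
    have := le_ciSup (f := fun j => fv v (w j)) (Set.finite_range _).bddAbove i₀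
    rwa [h₀, map_one] at this
  have e : ∏ᶠ v : FinitePlace K, ⨆ i, v (w i) = ∏ᶠ v : HeightOneSpectrum (𝓞 K), g v := by
    rw [← finprod_comp_equiv (FinitePlace.equivHeightOneSpectrum (K := K)).symm]
    rfl
  have hfin : {v : HeightOneSpectrum (𝓞 K) | g v ≠ 1}.Finite := by
    have h1 : {v : HeightOneSpectrum (𝓞 K) | g v ≠ 1} ⊆
        ⋃ i ∈ (univ.filter fun i => w i ≠ 0), {v | fv v (w i) ≠ 1} := by
      intro v hv
      by_contra hcon
      simp only [Set.mem_iUnion, Finset.mem_filter, Finset.mem_univ, true_and,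
        Set.mem_ofPred_eq, not_exists, not_not] at hcon
      refine hv (le_antisymm (ciSup_le fun i => ?_ ) (hg1 v))
      by_cases hi : w i = 0
      · simp [hi]
      · exact (hcon i hi).le
    refine Set.Finite.subset (Set.Finite.biUnion (Finset.finite_toSet _) fun i hi => ?_) h1
    exact fv_support_finite (Finset.mem_filter.1 (Finset.mem_coe.1 hi)).2
  have e2 : ∏ᶠ v : HeightOneSpectrum (𝓞 K), g v = ∏ v ∈ hfin.toFinset ∪ T, g v := by
    refine finprod_eq_prod_of_mulSupport_subset _ fun v hv => ?_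
    rw [Finset.coe_union, Set.Finite.coe_toFinset]
    left
    exact hv
  have e3 : ∏ v ∈ T, g v ≤ ∏ v ∈ hfin.toFinset ∪ T, g v := by
    rw [← Finset.prod_sdiff (Finset.subset_union_right (s₁ := hfin.toFinset) (s₂ := T))]
    have h1 : 1 ≤ ∏ v ∈ (hfin.toFinset ∪ T) \ T, g v := by
      refine Finset.prod_induction g (fun y => 1 ≤ y) (fun a b ha hb => ?_) le_rfl fun v _ => hg1 v
      nlinarith
    have h2 : 0 ≤ ∏ v ∈ T, g v := Finset.prod_nonneg fun v _ => zero_le_one.trans (hg1 v)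
    nlinarith
  have hw0 : ∀ u : InfinitePlace K, 1 ≤ ⨆ i, u (w i) := fun u => by
    have := le_ciSup (f := fun j => u (w j)) (Set.finite_range _).bddAbove i₀
    rwa [h₀, map_one] at this
  have h4 : 1 ≤ ∏ u : InfinitePlace K, (⨆ i, u (w i)) ^ u.mult := by
    refine Finset.prod_induction _ (fun y : ℝ => 1 ≤ y) (fun a b ha hb => ?_) le_rfl fun u _ =>
      one_le_pow₀ (hw0 u)
    nlinarith
  have h5 : 0 < ∏ v ∈ T, g v := prod_pos fun v _ => zero_lt_one.trans_le (hg1 v)
  rw [e, e2, ← Real.log_prod fun v _ => (zero_lt_one.trans_le (hg1 v)).ne']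
  refine Real.log_le_log h5 ?_
  nlinarith

/-- the primes over `2` -/
lemma sum_two (T : Finset (HeightOneSpectrum (𝓞 K))) (hT : ∀ v, v ∉ T → fv v (2 : K) = 1) :
    ∑ v ∈ T, -Real.log (fv v (2 : K)) = (totalWeight K : ℝ) * Real.log 2 := by
  have h := Lam_eq_zero (L := K) T (two_ne_zero) hT
  unfold Lam at h
  have e : ∀ w : InfinitePlace K, (w.mult : ℝ) * Real.log (w (2 : K)) = w.mult * Real.log 2 := by
    intro w
    have gen : ∀ N : ℕ, w (N : K) = N := by intro N; simp
    have e : w (2 : K) = 2 := by exact_mod_cast gen 2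
    rw [e]
  rw [Finset.sum_congr rfl fun w _ => e w, ← Finset.sum_mul, sum_mult] at h
  rw [Finset.sum_neg_distrib]
  linarith

/-- A polynomial in the power `𝔪_a ^ μ` is small of order `μ` near `a`. -/
lemma small_near {n : ℕ} (v : HeightOneSpectrum (𝓞 K)) (a : Fin n → K) (R : ℝ) (hR : 0 ≤ R) (μ : ℕ)
    (f : MvPolynomial (Fin n) K)
    (hf : f ∈ (Ideal.span (Set.range fun j => MvPolynomial.X j - MvPolynomial.C (a j))) ^ μ) :
    ∃ C : ℝ, 0 ≤ C ∧ ∀ (ρ : ℝ) (t : Fin n → K), 0 ≤ ρ → ρ ≤ R → (∀ j, fv v (t j - a j) ≤ ρ) →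
      fv v (MvPolynomial.eval t f) ≤ C * ρ ^ μ := by
  classical
  -- any polynomial is bounded
  have hbd : ∀ g : MvPolynomial (Fin n) K, ∃ C : ℝ, 0 ≤ C ∧ ∀ (t : Fin n → K),
      (∀ j, fv v (t j - a j) ≤ R) → fv v (MvPolynomial.eval t g) ≤ C := by
    intro g
    induction g using MvPolynomial.induction_on with
    | C c => exact ⟨fv v c, (fv v).nonneg _, fun t _ => by rw [MvPolynomial.eval_C]⟩
    | add p q hp hq =>
      obtain ⟨C1, h1, h1'⟩ := hp
      obtain ⟨C2, h2, h2'⟩ := hq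
      refine ⟨C1 + C2, add_nonneg h1 h2, fun t ht => ?_⟩
      rw [map_add]
      exact ((fv v).add_le _ _).trans (add_le_add (h1' t ht) (h2' t ht))
    | mul_X p j hp =>
      obtain ⟨C1, h1, h1'⟩ := hp
      refine ⟨C1 * (R + fv v (a j)), mul_nonneg h1 (add_nonneg hR ((fv v).nonneg _)), fun t ht => ?_⟩
      rw [map_mul, MvPolynomial.eval_X, map_mul]
      refine mul_le_mul (h1' t ht) ?_ ((fv v).nonneg _) h1
      have e : t j = (t j - a j) + a j := by ring
      rw [e]
      exact ((fv v).add_le _ _).trans (add_le_add (by simpa using ht j) le_rfl)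
  -- the ideals of the polynomials small of order `m`
  let J : ℕ → Ideal (MvPolynomial (Fin n) K) := fun m =>
    { carrier := {f | ∃ C : ℝ, 0 ≤ C ∧ ∀ (ρ : ℝ) (t : Fin n → K), 0 ≤ ρ → ρ ≤ R →
        (∀ j, fv v (t j - a j) ≤ ρ) → fv v (MvPolynomial.eval t f) ≤ C * ρ ^ m}
      add_mem' := by
        rintro p q ⟨C1, h1, h1'⟩ ⟨C2, h2, h2'⟩
        refine ⟨C1 + C2, add_nonneg h1 h2, fun ρ t h3 h4 h5 => ?_⟩
        rw [map_add, add_mul]
        exact ((fv v).add_le _ _).trans (add_le_add (h1' ρ t h3 h4 h5) (h2' ρ t h3 h4 h5))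
      zero_mem' := ⟨0, le_rfl, fun ρ t h3 h4 h5 => by simp⟩
      smul_mem' := by
        rintro g p ⟨C1, h1, h1'⟩
        obtain ⟨C2, h2, h2'⟩ := hbd g
        refine ⟨C2 * C1, mul_nonneg h2 h1, fun ρ t h3 h4 h5 => ?_⟩
        rw [smul_eq_mul, map_mul, map_mul, mul_assoc]
        exact mul_le_mul (h2' t fun j => (h5 j).trans h4) (h1' ρ t h3 h4 h5) ((fv v).nonneg _) h2 }
  have hJmul : ∀ m k : ℕ, J m * J k ≤ J (m + k) := by
    intro m k
    rw [Ideal.mul_le]
    rintro p ⟨C1, h1, h1'⟩ q ⟨C2, h2, h2'⟩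
    refine ⟨C1 * C2, mul_nonneg h1 h2, fun ρ t h3 h4 h5 => ?_⟩
    rw [map_mul, map_mul]
    calc _ ≤ (C1 * ρ ^ m) * (C2 * ρ ^ k) :=
          mul_le_mul (h1' ρ t h3 h4 h5) (h2' ρ t h3 h4 h5) ((fv v).nonneg _) (by positivity)
      _ = _ := by rw [pow_add]; ring
  have hJ1 : Ideal.span (Set.range fun j => MvPolynomial.X j - MvPolynomial.C (a j)) ≤ J 1 := by
    rw [Ideal.span_le]
    rintro _ ⟨j, rfl⟩
    refine ⟨1, zero_le_one, fun ρ t h3 h4 h5 => ?_⟩
    simp only [map_sub, MvPolynomial.eval_X, MvPolynomial.eval_C, one_mul, pow_one]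
    exact h5 j
  have hJpow : ∀ m : ℕ,
      (Ideal.span (Set.range fun j => MvPolynomial.X j - MvPolynomial.C (a j))) ^ m ≤ J m := by
    intro m
    induction m with
    | zero =>
      intro g _
      obtain ⟨C1, h1, h1'⟩ := hbd g
      refine ⟨C1, h1, fun ρ t h3 h4 h5 => ?_⟩
      rw [pow_zero, mul_one]
      exact h1' t fun j => (h5 j).trans h4
    | succ m ih =>
      rw [pow_succ]
      exact (Ideal.mul_mono ih hJ1).trans (hJmul m 1)
  exact hJpow μ hf

end Pool.Agent.J4.H51.Vo
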