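import Pool.Agent.W231.G.Cnt
import Pool.Agent.J4.H51.Vo.Loc

set_option autoImplicit false

/-!
The points of a torus in projective space; the truncated counting function at a point which is close to
a given point at the primes over two.
-/

namespace Pool.Agent.J4.H51.Vo

open NumberField IsDedekindDomain Height Finset Pool.Agent.W231.V Pool.Agent.W231.G

/-- the point of projective space with parameters `t` -/
def pt {K : Type*} [Field K] {N n : ℕ} (A : Fin (N + 1) → Fin n → ℕ) (t : Fin n → K) :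
    Fin (N + 1) → K := fun i => ∏ j, t j ^ A i j

lemma pt_ne {K : Type*} [Field K] {N n : ℕ} (A : Fin (N + 1) → Fin n → ℕ) {t : Fin n → K}
    (ht : ∀ j, t j ≠ 0) (i : Fin (N + 1)) : pt A t i ≠ 0 :=
  Finset.prod_ne_zero_iff.2 fun j _ => pow_ne_zero _ (ht j)

/-- the parameters are Laurent monomials of degree zero in the coordinates -/
lemma pt_inv {K : Type*} [Field K] {N n : ℕ} (A : Fin (N + 1) → Fin n → ℕ)
    (c : Fin (N + 1) → ℤ) (j : Fin n) (h0 : ∑ i, c i = 0)
    (hc : ∀ l, ∑ i, c i * (A i l : ℤ) = if l = j then 1 else 0) {t : Fin n → K}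
    (ht : ∀ j, t j ≠ 0) {lam : K} (hlam : lam ≠ 0) :
    ∏ i, (lam * pt A t i) ^ c i = t j := by
  have h1 : ∀ i, (lam * pt A t i) ^ c i = lam ^ c i * ∏ l, t l ^ (c i * (A i l : ℤ)) := by
    intro i
    rw [mul_zpow, pt, ← Finset.prod_zpow]
    congr 1
    refine Finset.prod_congr rfl fun l _ => ?_
    rw [← zpow_natCast, ← zpow_mul, mul_comm]
  have h2 : ∀ (x : K), x ≠ 0 → ∀ g : Fin (N + 1) → ℤ, ∏ i, x ^ g i = x ^ ∑ i, g i := by
    intro x hx g
    have : ∀ s : Finset (Fin (N + 1)), ∏ i ∈ s, x ^ g i = x ^ ∑ i ∈ s, g i := by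
      classical
      intro s
      induction s using Finset.induction_on with
      | empty => simp
      | insert i s hi ih => rw [Finset.prod_insert hi, Finset.sum_insert hi, ih, zpow_add₀ hx]
    exact this _
  rw [Finset.prod_congr rfl fun i _ => h1 i, Finset.prod_mul_distrib, h2 lam hlam, h0, zpow_zero,
    one_mul, Finset.prod_comm, Finset.prod_congr rfl fun l _ => h2 (t l) (ht l) _]
  rw [Finset.prod_congr rfl fun l _ => by rw [hc l]]
  rw [Finset.prod_eq_single j]
  · simp
  · intro l _ hl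
    simp [hl]
  · intro h
    exact absurd (Finset.mem_univ _) h

variable {K : Type*} [Field K] [NumberField K]

/-- the height of the point with parameters `t` -/
lemma height_pt_le {N n : ℕ} (A : Fin (N + 1) → Fin n → ℕ) : ∃ M : ℕ, ∀ t : Fin n → K,
    logHeight (pt A t) ≤ M * ∑ j, logHeight₁ (t j) := by
  classical
  set M : ℕ := ∑ i, ∑ j, A i j with hM
  have hAM : ∀ i j, A i j ≤ M := by
    intro i j
    have h1 : A i j ≤ ∑ j, A i j := Finset.single_le_sum (f := fun j => A i j)
      (fun _ _ => Nat.zero_le _) (Finset.mem_univ j)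
    have h2 : ∑ j, A i j ≤ M := Finset.single_le_sum (f := fun i => ∑ j, A i j)
      (fun _ _ => Nat.zero_le _) (Finset.mem_univ i)
    exact h1.trans h2
  refine ⟨M, fun t => ?_⟩
  have h1 := logHeight_fun_prod_eq (K := K) (α := Fin n × Fin M) (ι := fun _ => Fin 2)
    (x := fun a => ![t a.1, (1 : K)]) (by
      intro a h
      have := congrFun h 1
      simp at this)
  have h2 := logHeight_comp_le (K := K)
    (fun (i : Fin (N + 1)) => (fun a : Fin n × Fin M => if (a.2 : ℕ) < A i a.1 then (0 : Fin 2) else 1))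
    (fun I : (a : Fin n × Fin M) → Fin 2 => ∏ a, ![t a.1, (1 : K)] (I a))
  rw [h1] at h2
  have h3 : ((fun I : (a : Fin n × Fin M) → Fin 2 => ∏ a, ![t a.1, (1 : K)] (I a)) ∘
      (fun (i : Fin (N + 1)) => (fun a : Fin n × Fin M => if (a.2 : ℕ) < A i a.1 then (0 : Fin 2) else 1))) =
      pt A t := by
    funext i
    simp only [Function.comp_apply, pt]
    rw [Fintype.prod_prod_type]
    refine Finset.prod_congr rfl fun j _ => ?_
    have h4 : ∀ l : Fin M, ![t j, (1 : K)] (if (l : ℕ) < A i j then (0 : Fin 2) else 1) =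
        if (l : ℕ) < A i j then t j else 1 := by
      intro l
      split_ifs <;> simp
    simp only [h4]
    rw [Finset.prod_ite, Finset.prod_const, Finset.prod_const_one, mul_one]
    congr 1
    rw [Fin.card_filter_val_lt]
    exact min_eq_right (hAM i j)
  rw [h3] at h2
  refine h2.trans (le_of_eq ?_)
  rw [Fintype.sum_prod_type, Finset.mul_sum]
  refine Finset.sum_congr rfl fun j _ => ?_
  simp only [Finset.sum_const, Finset.card_univ, Fintype.card_fin, nsmul_eq_mul]
  rw [logHeight₁_eq_logHeight]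

lemma log_aux {C b q : ℝ} (hC : 0 < C) (hb : 0 < b) (hq : 0 < q) (m μ : ℕ) :
    Real.log (C * (b * q ^ m) ^ μ) = Real.log C + μ * (Real.log b + m * Real.log q) := by
  have h1 : 0 < q ^ m := pow_pos hq m
  have h2 : 0 < b * q ^ m := mul_pos hb h1
  rw [Real.log_mul hC.ne' (pow_pos h2 μ).ne', Real.log_pow, Real.log_mul hb.ne' h1.ne', Real.log_pow]

/-- the reduction of the point at the prime `v` is on the coordinate hyperplanes or on `F = 0` -/
def Meets {N : ℕ} (v : HeightOneSpectrum (𝓞 K)) (F : MvPolynomial (Fin (N + 1)) K) (d : ℕ)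
    (x : Fin (N + 1) → K) : Prop :=
  (∃ i, fv v (x i) < ⨆ j, fv v (x j)) ∨
    fv v (MvPolynomial.eval x F) < (⨆ m, fv v (F.coeff m)) * (⨆ j, fv v (x j)) ^ d

theorem count {N n : ℕ} (A : Fin (N + 1) → Fin n → ℕ) (F : MvPolynomial (Fin (N + 1)) K) (d : ℕ)
    (hFd : F.IsHomogeneous d) (a : Fin n → K) (ha : ∀ j, a j ≠ 0) (μ : ℕ)
    (hF : ∃ f : MvPolynomial (Fin n) K, (∀ t, MvPolynomial.eval t f = MvPolynomial.eval (pt A t) F) ∧
      f ∈ (Ideal.span (Set.range fun j => MvPolynomial.X j - MvPolynomial.C (a j))) ^ μ) :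
    ∃ C : ℝ, ∀ (Q m : ℕ) (u : Fin n → K), Odd Q →
      (∀ v : HeightOneSpectrum (𝓞 K), fv v (Q : K) = 1 → ∀ j, fv v (u j) = 1) →
      (∀ v : HeightOneSpectrum (𝓞 K), fv v (2 : K) < 1 → ∀ j, fv v (u j - 1) ≤ fv v (2 : K) ^ m) →
      MvPolynomial.eval (pt A fun j => a j * u j) F ≠ 0 →
      {v : HeightOneSpectrum (𝓞 K) | Meets v F d (pt A fun j => a j * u j)}.Finite ∧
      ∀ T : Finset (HeightOneSpectrum (𝓞 K)), (∀ v ∈ T, Meets v F d (pt A fun j => a j * u j)) →
        ∑ v ∈ T, ell v ≤ d * logHeight (pt A fun j => a j * u j) +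
          (totalWeight K : ℝ) * (Real.log Q - μ * (m * Real.log 2)) + C := by
  classical
  obtain ⟨f, hfF, hf⟩ := hF
  -- the bad primes
  set cs : Finset K := {2} ∪ F.support.image F.coeff ∪ Finset.univ.image a with hcs
  obtain ⟨T0, hT0⟩ := exists_bad cs
  have hm2 : (2 : K) ∈ cs := by simp [hcs]
  have h2v : ∀ v, v ∉ T0 → fv v (2 : K) = 1 := fun v hv => (hT0 v hv 2 hm2).1 two_ne_zero
  have hFc : ∀ v, v ∉ T0 → ∀ m, fv v (F.coeff m) ≤ 1 := by
    intro v hv m
    by_cases h : F.coeff m = 0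
    · rw [h, map_zero]; exact zero_le_one
    · refine (hT0 v hv _ ?_).2
      have : F.coeff m ∈ F.support.image F.coeff :=
        Finset.mem_image.2 ⟨m, MvPolynomial.mem_support_iff.2 h, rfl⟩
      simp only [hcs, Finset.mem_union]; tauto
  have hav : ∀ v, v ∉ T0 → ∀ j, fv v (a j) = 1 := by
    intro v hv j
    refine (hT0 v hv _ ?_).1 (ha j)
    have : a j ∈ Finset.univ.image a := Finset.mem_image.2 ⟨j, Finset.mem_univ _, rfl⟩
    simp only [hcs, Finset.mem_union]; tauto
  set T2 : Finset (HeightOneSpectrum (𝓞 K)) := T0.filter fun v => fv v (2 : K) < 1 with hT2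
  have hT2' : ∀ v, v ∉ T2 → fv v (2 : K) = 1 := by
    intro v hv
    by_cases hv0 : v ∈ T0
    · by_contra h
      refine hv (Finset.mem_filter.2 ⟨hv0, lt_of_le_of_ne ?_ h⟩)
      exact_mod_cast fv_nat (K := K) v 2
    · exact h2v v hv0
  have hsum2 := sum_two T2 hT2'
  -- the height of the vector of the powers of the coordinates and the value of `F`
  set p : Option (Fin (N + 1)) → MvPolynomial (Fin (N + 1)) K := fun o =>
    o.elim F fun i => MvPolynomial.X i ^ d with hp
  have hph : ∀ o, (p o).IsHomogeneous d := by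
    intro o
    cases o with
    | none => exact hFd
    | some i =>
      have := MvPolynomial.isHomogeneous_X_pow (R := K) i d
      exact this
  obtain ⟨C1, hC1⟩ := logHeight_eval_le' (K := K) hph
  -- the local constants over two
  have hsm : ∀ v : HeightOneSpectrum (𝓞 K), ∃ C : ℝ, 0 ≤ C ∧ ∀ (ρ : ℝ) (t : Fin n → K), 0 ≤ ρ →
      ρ ≤ (1 + ∑ j, fv v (a j)) → (∀ j, fv v (t j - a j) ≤ ρ) →
      fv v (MvPolynomial.eval t f) ≤ C * ρ ^ μ := fun v =>
    small_near v a (1 + ∑ j, fv v (a j)) (add_nonneg zero_le_one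
      (Finset.sum_nonneg fun j _ => (fv v).nonneg _)) μ f hf
  choose Cv hCv0 hCv using hsm
  set b : HeightOneSpectrum (𝓞 K) → ℝ := fun v => 1 + ∑ j, fv v (a j) with hb
  have hb1 : ∀ v, 1 ≤ b v := fun v => le_add_of_nonneg_right (Finset.sum_nonneg fun j _ => (fv v).nonneg _)
  set κ : HeightOneSpectrum (𝓞 K) → ℝ := fun v =>
    d * Real.log (fv v (pt A a 0)) - Real.log (Cv v + 1) - μ * Real.log (b v) with hκ
  refine ⟨∑ v ∈ T0, ell v + C1 - ∑ v ∈ T2, κ v, fun Q m u hQ hu1 hu2 hx0 => ?_⟩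
  set x : Fin (N + 1) → K := pt A fun j => a j * u j with hx
  set y : K := MvPolynomial.eval x F with hy
  have hQ0 : (Q : K) ≠ 0 := by
    have : Q ≠ 0 := by rintro rfl; exact absurd hQ (by decide)
    exact_mod_cast this
  have hQ1 : 1 ≤ Q := by
    rcases Nat.eq_zero_or_pos Q with h | h
    · exact absurd (by rw [h]; simp) hQ0
    · exact h
  -- good primes
  have hgood : ∀ v, v ∉ T0 → fv v (Q : K) = 1 → (∀ i, fv v (x i) = 1) := by
    intro v hv hvQ i
    simp only [hx, pt, map_prod, map_pow, map_mul, hav v hv, hu1 v hvQ, one_mul, one_pow,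
      Finset.prod_const_one]
  have hgoodM : ∀ v, v ∉ T0 → fv v (Q : K) = 1 → Meets v F d x → fv v y < 1 := by
    intro v hv hvQ hM
    have h1 := hgood v hv hvQ
    unfold Meets at hM
    simp only [h1, ciSup_const, lt_irrefl, exists_false, false_or, one_pow, mul_one] at hM
    exact lt_of_lt_of_le hM (ciSup_le fun m => hFc v hv m)
  have key : ∀ v, Meets v F d x → v ∈ T0 ∨ fv v (Q : K) < 1 ∨ (v ∉ T0 ∧ fv v (Q : K) = 1 ∧ fv v y < 1) := by
    intro v hv
    by_cases h0 : v ∈ T0
    · exact Or.inl h0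
    by_cases h1 : fv v (Q : K) < 1
    · exact Or.inr (Or.inl h1)
    have h2 : fv v (Q : K) = 1 := le_antisymm (fv_nat v Q) (not_lt.1 h1)
    exact Or.inr (Or.inr ⟨h0, h2, hgoodM v h0 h2 hv⟩)
  refine ⟨?_, fun T hT => ?_⟩
  · refine (T0.finite_toSet.union ((fv_support_finite hQ0).union (fv_support_finite hx0))).subset ?_
    intro v hv
    rcases key v hv with h | h | h
    · exact Or.inl h
    · exact Or.inr (Or.inl h.ne)
    · exact Or.inr (Or.inr h.2.2.ne)
  -- the three parts
  set T1 := T.filter fun v => v ∉ T0 ∧ fv v (Q : K) < 1 with hT1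
  set T3 := T.filter fun v => v ∉ T0 ∧ fv v (Q : K) = 1 ∧ fv v y < 1 with hT3
  have hsub : T ⊆ (T0 ∪ T1) ∪ T3 := by
    intro v hv
    rcases key v (hT v hv) with h | h | h
    · exact Finset.mem_union_left _ (Finset.mem_union_left _ h)
    · by_cases h0 : v ∈ T0
      · exact Finset.mem_union_left _ (Finset.mem_union_left _ h0)
      · exact Finset.mem_union_left _ (Finset.mem_union_right _ (Finset.mem_filter.2 ⟨hv, h0, h⟩))
    · exact Finset.mem_union_right _ (Finset.mem_filter.2 ⟨hv, h⟩)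
  have hell : ∀ s : Finset (HeightOneSpectrum (𝓞 K)), 0 ≤ ∑ v ∈ s, ell v := fun s =>
    Finset.sum_nonneg fun v _ => (ell_pos v).le
  have hsplit : ∑ v ∈ T, ell v ≤ ∑ v ∈ T0, ell v + ∑ v ∈ T1, ell v + ∑ v ∈ T3, ell v := by
    have e1 : ∑ v ∈ T, ell v ≤ ∑ v ∈ (T0 ∪ T1) ∪ T3, ell v :=
      Finset.sum_le_sum_of_subset_of_nonneg hsub fun v _ _ => (ell_pos v).le
    have e2 := Finset.sum_union_inter (s₁ := T0 ∪ T1) (s₂ := T3) (f := fun v => ell v)
    have e3 := Finset.sum_union_inter (s₁ := T0) (s₂ := T1) (f := fun v => ell v)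
    have e4 := hell ((T0 ∪ T1) ∩ T3)
    have e5 := hell (T0 ∩ T1)
    linarith
  have hpart1 : ∑ v ∈ T1, ell v ≤ (totalWeight K : ℝ) * Real.log Q := by
    rw [← logHeight₁_nat (K := K) hQ1]
    exact weight_le hQ0 T1 fun v hv => (Finset.mem_filter.1 hv).2.2
  -- the vector
  set w : Option (Fin (N + 1)) → K := fun o => y⁻¹ * MvPolynomial.eval x (p o) with hw
  have hwH : logHeight w ≤ C1 + d * logHeight x := by
    have e : w = y⁻¹ • fun o => MvPolynomial.eval x (p o) := rfl
    rw [e, logHeight_smul_eq_logHeight _ (inv_ne_zero hx0)]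
    exact hC1 x
  have hwn : w none = 1 := by
    simp only [hw, hp, Option.elim]
    exact inv_mul_cancel₀ hx0
  have hws : ∀ i, w (some i) = x i ^ d / y := by
    intro i
    simp only [hw, hp, Option.elim]
    rw [map_pow, MvPolynomial.eval_X]
    field_simp
  have hbdd : ∀ v : HeightOneSpectrum (𝓞 K), BddAbove (Set.range fun o => fv v (w o)) := fun v =>
    (Set.finite_range _).bddAbove
  have hdisj : Disjoint T3 T2 := by
    rw [Finset.disjoint_left]
    intro v h1 h2
    exact (Finset.mem_filter.1 h1).2.1 (Finset.mem_filter.1 h2).1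
  have hmain := sum_local_le w none hwn (T3 ∪ T2)
  rw [Finset.sum_union hdisj] at hmain
  have hT3le : ∑ v ∈ T3, ell v ≤ ∑ v ∈ T3, Real.log (⨆ o, fv v (w o)) := by
    refine Finset.sum_le_sum fun v hv => ?_
    obtain ⟨h1, h2, h3⟩ := (Finset.mem_filter.1 hv).2
    have h4 : fv v (w (some 0)) = (fv v y)⁻¹ := by
      rw [hws, map_div₀, map_pow, hgood v h1 h2 0, one_pow, one_div]
    have h5 := le_ciSup (hbdd v) (some 0)
    rw [h4] at h5
    obtain ⟨z, hz⟩ := fv_zpow v hx0
    have hlt := one_lt_norm v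
    have hz0 : z < 0 := by
      by_contra h
      rw [hz] at h3
      have := one_le_zpow₀ hlt.le (not_lt.1 h)
      linarith
    have h6 : 0 < (fv v y)⁻¹ := inv_pos.2 ((fv v).pos_iff.2 hx0)
    refine le_trans ?_ (Real.log_le_log h6 h5)
    rw [Real.log_inv, hz, Real.log_zpow]
    have h7 : (1 : ℝ) ≤ ((-z : ℤ) : ℝ) := by exact_mod_cast (by omega : 1 ≤ -z)
    have h8 : Real.log (Ideal.absNorm v.asIdeal : ℝ) = ell v := rfl
    rw [h8]
    push_cast at h7
    nlinarith [ell_pos v]
  have hT2le : ∑ v ∈ T2, (-(μ * (m * Real.log (fv v (2 : K)))) + κ v) ≤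
      ∑ v ∈ T2, Real.log (⨆ o, fv v (w o)) := by
    refine Finset.sum_le_sum fun v hv => ?_
    obtain ⟨h1, h2⟩ := Finset.mem_filter.1 hv
    -- `Q` is a unit
    have hQv : fv v (Q : K) = 1 := by
      obtain ⟨j, hj⟩ := hQ
      by_contra hne
      have hlt : fv v (Q : K) < 1 := lt_of_le_of_ne (fv_nat v Q) hne
      have e : (1 : K) = (Q : K) + -(2 * (j : K)) := by
        rw [hj]; push_cast; ring
      have h3 := fv_na v (Q : K) (-(2 * (j : K)))
      rw [← e, map_one, map_neg_eq_map, map_mul] at h3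
      have h4 : fv v (2 : K) * fv v (j : K) < 1 := by
        have := fv_nat v j (K := K)
        have h5 := (fv v).nonneg (2 : K)
        nlinarith
      exact absurd h3 (not_le.2 (max_lt hlt h4))
    have hu := hu1 v hQv
    have hxv : ∀ i, fv v (x i) = fv v (pt A a i) := by
      intro i
      simp only [hx, pt, map_prod, map_pow, map_mul, hu, mul_one]
    have h2pos : 0 < fv v (2 : K) := (fv v).pos_iff.2 two_ne_zero
    have h2m : fv v (2 : K) ^ m ≤ 1 := pow_le_one₀ h2pos.le h2.le
    have hρ := hCv v (b v * fv v (2 : K) ^ m) (fun j => a j * u j)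
      (mul_nonneg (zero_le_one.trans (hb1 v)) (pow_nonneg h2pos.le _))
      (mul_le_of_le_one_right (zero_le_one.trans (hb1 v)) h2m) (by
        intro j
        have e : a j * u j - a j = a j * (u j - 1) := by ring
        rw [e, map_mul]
        refine mul_le_mul ?_ (hu2 v h2 j) ((fv v).nonneg _) (zero_le_one.trans (hb1 v))
        have : fv v (a j) ≤ ∑ j, fv v (a j) := Finset.single_le_sum
          (f := fun j => fv v (a j)) (fun j _ => (fv v).nonneg _) (Finset.mem_univ j)
        simp only [hb]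
        linarith)
    rw [hfF] at hρ
    change fv v y ≤ _ at hρ
    have hρ' : fv v y ≤ (Cv v + 1) * (b v * fv v (2 : K) ^ m) ^ μ := by
      refine hρ.trans (mul_le_mul_of_nonneg_right (by linarith) (pow_nonneg (mul_nonneg
        (zero_le_one.trans (hb1 v)) (pow_nonneg h2pos.le _)) _))
    have hbpos : 0 < b v := zero_lt_one.trans_le (hb1 v)
    have hCpos : 0 < Cv v + 1 := by linarith [hCv0 v]
    have hypos : 0 < fv v y := (fv v).pos_iff.2 hx0
    have hlogy : Real.log (fv v y) ≤ Real.log (Cv v + 1) + μ * (Real.log (b v) + m * Real.log (fv v (2 : K))) := by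
      refine (Real.log_le_log hypos hρ').trans (le_of_eq ?_)
      exact log_aux hCpos hbpos h2pos m μ
    have ha0 : pt A a 0 ≠ 0 := pt_ne A ha 0
    have hα : 0 < fv v (pt A a 0) := (fv v).pos_iff.2 ha0
    have h4 : fv v (w (some 0)) = fv v (pt A a 0) ^ d / fv v y := by
      rw [hws, map_div₀, map_pow, hxv]
    have h5 := le_ciSup (hbdd v) (some 0)
    rw [h4] at h5
    have hαd : 0 < fv v (pt A a 0) ^ d := pow_pos hα d
    refine le_trans ?_ (Real.log_le_log (div_pos hαd hypos) h5)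
    rw [Real.log_div hαd.ne' hypos.ne', Real.log_pow]
    simp only [hκ]
    linarith
  have e2 : ∑ v ∈ T2, (-(μ * (m * Real.log (fv v (2 : K)))) + κ v) =
      μ * m * ((totalWeight K : ℝ) * Real.log 2) + ∑ v ∈ T2, κ v := by
    rw [Finset.sum_add_distrib, ← hsum2, Finset.mul_sum]
    congr 1
    exact Finset.sum_congr rfl fun v _ => by ring
  rw [e2] at hT2le
  have : (totalWeight K : ℝ) * (Real.log Q - μ * (m * Real.log 2)) =
      (totalWeight K : ℝ) * Real.log Q - μ * m * ((totalWeight K : ℝ) * Real.log 2) := by ring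
  linarith

end Pool.Agent.J4.H51.Vo
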