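import Mathlib

set_option autoImplicit false

/-!
Choice of the parameters: many primes up to `x`, exponents and a power of two.
-/

namespace Pool.Agent.J4.H51.Vo

open Filter Topology Real

/-- the number of odd primes up to `x` is at least `x / (2 log x)` -/
lemma eventually_primes : ∀ᶠ x : ℝ in atTop, x / (2 * Real.log x) + 1 ≤ (Nat.primeCounting ⌊x⌋₊ : ℝ) := by
  have h1 : ∀ᶠ x : ℝ in atTop, Real.log (x + 2) ≤ (1 / 40) * x := by
    have h2 := (Real.isLittleO_log_id_atTop).bound (show (0 : ℝ) < 1 / 80 by norm_num)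
    have h3 := (tendsto_atTop_add_const_right atTop (2 : ℝ) tendsto_id).eventually h2
    filter_upwards [h3, eventually_ge_atTop (2 : ℝ)] with x hx hx2
    simp only [id_eq, Real.norm_eq_abs] at hx
    rw [abs_of_nonneg (by linarith : (0 : ℝ) ≤ x + 2)] at hx
    have := le_abs_self (Real.log (x + 2))
    linarith
  filter_upwards [h1, eventually_ge_atTop (100 : ℝ)] with x hx hx2
  have hlog : 0 < Real.log x := Real.log_pos (by linarith)
  refine le_trans ?_ (Chebyshev.pi_ge' (by linarith : (1 : ℝ) < x))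
  have hlx : Real.log x ≤ Real.log (x + 2) := Real.log_le_log (by linarith) (by linarith)
  have h2 := Real.log_two_gt_d9
  rw [le_div_iff₀ hlog]
  have e : (x / (2 * Real.log x) + 1) * Real.log x = x / 2 + Real.log x := by
    field_simp
  rw [e]
  nlinarith

/-- a set of `k` odd primes up to `x` -/
lemma exists_primes {x : ℝ} {k : ℕ} (hk : (k : ℝ) + 1 ≤ (Nat.primeCounting ⌊x⌋₊ : ℝ)) (hx : 0 ≤ x) :
    ∃ P : Finset ℕ, P.card = k ∧ ∀ p ∈ P, p.Prime ∧ p ≠ 2 ∧ (p : ℝ) ≤ x := by
  have h1 : k + 1 ≤ Nat.primeCounting ⌊x⌋₊ := by exact_mod_cast hk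
  have h2 : Nat.primeCounting ⌊x⌋₊ = ((Finset.range (⌊x⌋₊ + 1)).filter Nat.Prime).card := by
    rw [Nat.primeCounting, Nat.primeCounting', Nat.count_eq_card_filter_range]
  rw [h2] at h1
  have h3 : k ≤ (((Finset.range (⌊x⌋₊ + 1)).filter Nat.Prime).erase 2).card := by
    have := Finset.pred_card_le_card_erase (s := (Finset.range (⌊x⌋₊ + 1)).filter Nat.Prime) (a := 2)
    omega
  obtain ⟨P, hP, hPk⟩ := Finset.exists_subset_card_eq h3
  refine ⟨P, hPk, fun p hp => ?_⟩
  have h4 := hP hp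
  rw [Finset.mem_erase, Finset.mem_filter, Finset.mem_range] at h4
  refine ⟨h4.2.2, h4.1, ?_⟩
  have h5 : p ≤ ⌊x⌋₊ := by omega
  exact (Nat.le_floor_iff hx).1 h5

lemma params (μ : ℕ) (hμ : 1 ≤ μ) (C : ℝ) (hC : 0 < C) : ∃ c : ℝ, 0 < c ∧ ∀ᶠ H : ℝ in atTop,
    ∃ (P : Finset ℕ) (E m : ℕ), (∀ p ∈ P, p.Prime ∧ p ≠ 2) ∧ 1 ≤ P.card ∧
      (E : ℝ) * ∑ p ∈ P, Real.log p ≤ H ∧
      C * P.card + ∑ p ∈ P, Real.log p ≤ μ * (m * Real.log 2) ∧
      Real.exp P.card * 2 ^ m ≤ ((E : ℝ) + 1) ^ P.card ∧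
      c * H ^ ((μ : ℝ) / (μ + 1)) / Real.log H ≤ P.card := by
  set θ : ℝ := (μ : ℝ) / (μ + 1) with hθ
  have hμ1 : (1 : ℝ) ≤ μ := by exact_mod_cast hμ
  have hθ0 : 0 < θ := by positivity
  have hθ1 : θ < 1 := by
    rw [hθ, div_lt_one (by positivity)]
    linarith
  have hμθ : (μ + 1) * θ = μ := by
    rw [hθ]; field_simp
  set C₁ : ℝ := 2 + C with hC₁
  refine ⟨Real.exp (-C₁) / 4, by positivity, ?_⟩
  -- `x = exp (-C₁) H ^ θ`
  have hxt : Tendsto (fun H : ℝ => Real.exp (-C₁) * H ^ θ) atTop atTop :=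
    (tendsto_rpow_atTop hθ0).const_mul_atTop (Real.exp_pos _)
  have hlog4 : ∀ᶠ x : ℝ in atTop, 4 * Real.log x ≤ x := by
    have h2 := (Real.isLittleO_log_id_atTop).bound (show (0 : ℝ) < 1 / 4 by norm_num)
    filter_upwards [h2, eventually_ge_atTop (2 : ℝ)] with x hx hx2
    simp only [id_eq, Real.norm_eq_abs] at hx
    rw [abs_of_nonneg (by linarith : (0 : ℝ) ≤ x)] at hx
    have := le_abs_self (Real.log x)
    linarith
  filter_upwards [hxt.eventually eventually_primes, hxt.eventually hlog4,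
    hxt.eventually (eventually_ge_atTop (Real.exp 1)), eventually_ge_atTop (Real.exp 1)] with H h1 h2 h3 h4
  set x : ℝ := Real.exp (-C₁) * H ^ θ with hx
  have hx1 : 1 < x := lt_of_lt_of_le (by
    have := Real.add_one_lt_exp (show (1 : ℝ) ≠ 0 by norm_num); linarith) h3
  have hH1 : 1 < H := lt_of_lt_of_le (by
    have := Real.add_one_lt_exp (show (1 : ℝ) ≠ 0 by norm_num); linarith) h4
  have hlx1 : 1 ≤ Real.log x := by
    rw [Real.le_log_iff_exp_le (by linarith)]
    exact h3
  have hlH1 : 1 ≤ Real.log H := by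
    rw [Real.le_log_iff_exp_le (by linarith)]
    exact h4
  have hlogx : Real.log x = -C₁ + θ * Real.log H := by
    rw [hx, Real.log_mul (Real.exp_pos _).ne' (Real.rpow_pos_of_pos (by linarith) _).ne',
      Real.log_exp, Real.log_rpow (by linarith)]
  have hlxH : Real.log x ≤ Real.log H := by
    rw [hlogx]
    have : θ * Real.log H ≤ 1 * Real.log H := mul_le_mul_of_nonneg_right hθ1.le (by linarith)
    linarith
  set k : ℕ := ⌊x / (2 * Real.log x)⌋₊ with hk
  have hk0 : (k : ℝ) ≤ x / (2 * Real.log x) := Nat.floor_le (by positivity)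
  have hx2 : 2 ≤ x / (2 * Real.log x) := by
    rw [le_div_iff₀ (by positivity)]
    linarith
  have hk1 : 1 ≤ k := by
    rw [hk]
    exact Nat.le_floor (by push_cast; linarith)
  have hk1' : (1 : ℝ) ≤ k := by exact_mod_cast hk1
  have hkx : (k : ℝ) * Real.log x ≤ x / 2 := by
    have := mul_le_mul_of_nonneg_right hk0 (by linarith : (0 : ℝ) ≤ Real.log x)
    refine this.trans (le_of_eq ?_)
    field_simp
  obtain ⟨P, hPk, hP⟩ := exists_primes (x := x) (k := k) (by linarith) (by linarith)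
  have hsum : ∑ p ∈ P, Real.log p ≤ k * Real.log x := by
    rw [← hPk, ← nsmul_eq_mul]
    refine Finset.sum_le_card_nsmul _ _ _ fun p hp => ?_
    exact Real.log_le_log (by exact_mod_cast (hP p hp).1.pos) (hP p hp).2.2
  set E : ℕ := ⌊H / (k * Real.log x)⌋₊ with hE
  have hkl : 0 < (k : ℝ) * Real.log x := by positivity
  have hEle : (E : ℝ) ≤ H / (k * Real.log x) := Nat.floor_le (by positivity)
  have hElt : H / (k * Real.log x) < (E : ℝ) + 1 := Nat.lt_floor_add_one _
  have hlogE : Real.log H - Real.log x ≤ Real.log (E + 1) := by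
    rw [← Real.log_div (by linarith) (by linarith)]
    refine Real.log_le_log (by positivity) (le_trans ?_ hElt.le)
    apply div_le_div_of_nonneg_left (by linarith) hkl
    linarith
  -- the main inequality
  have hmain : 2 * μ + C + Real.log x ≤ μ * Real.log (E + 1) := by
    have e1 : (μ + 1) * Real.log x = -((μ + 1) * C₁) + μ * Real.log H := by
      rw [hlogx, mul_add, ← mul_assoc, hμθ]
      ring
    have e2 : (μ : ℝ) * (Real.log H - Real.log x) ≤ μ * Real.log (E + 1) :=
      mul_le_mul_of_nonneg_left hlogE (by linarith)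
    have e3 : 2 * (μ : ℝ) + C ≤ (μ + 1) * C₁ := by
      rw [hC₁]
      nlinarith
    linarith
  have hlE2 : 2 ≤ Real.log (E + 1) := by
    have : (μ : ℝ) * 2 ≤ μ * Real.log (E + 1) := by linarith
    exact le_of_mul_le_mul_left this (by linarith)
  have hl2 : 0 < Real.log 2 := Real.log_pos (by norm_num)
  have hl2' : Real.log 2 ≤ 1 := by
    have := Real.log_two_lt_d9
    linarith
  set m : ℕ := ⌊((k : ℝ) * Real.log (E + 1) - k) / Real.log 2⌋₊ with hm
  have hm1 : (m : ℝ) * Real.log 2 ≤ (k : ℝ) * Real.log (E + 1) - k := by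
    rw [← le_div_iff₀ hl2]
    refine Nat.floor_le (div_nonneg ?_ hl2.le)
    nlinarith
  have hm2 : (k : ℝ) * Real.log (E + 1) - k - Real.log 2 ≤ (m : ℝ) * Real.log 2 := by
    have := Nat.lt_floor_add_one (((k : ℝ) * Real.log (E + 1) - k) / Real.log 2)
    rw [← hm, div_lt_iff₀ hl2] at this
    linarith
  refine ⟨P, E, m, fun p hp => ⟨(hP p hp).1, (hP p hp).2.1⟩, by rw [hPk]; exact hk1, ?_, ?_, ?_, ?_⟩
  · calc (E : ℝ) * ∑ p ∈ P, Real.log p ≤ (H / (k * Real.log x)) * (k * Real.log x) := by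
          refine mul_le_mul hEle hsum (Finset.sum_nonneg fun p hp => ?_) (by positivity)
          exact Real.log_natCast_nonneg p
      _ = H := by field_simp
  · rw [hPk]
    have e1 : (μ : ℝ) * ((k : ℝ) * Real.log (E + 1) - k - Real.log 2) ≤ μ * (m * Real.log 2) :=
      mul_le_mul_of_nonneg_left hm2 (by linarith)
    have e2 : (k : ℝ) * (2 * μ + C + Real.log x) ≤ k * (μ * Real.log (E + 1)) :=
      mul_le_mul_of_nonneg_left hmain (by linarith)
    have e3 : (μ : ℝ) * Real.log 2 ≤ μ * k := mul_le_mul_of_nonneg_left (by linarith) (by linarith)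
    nlinarith
  · rw [hPk]
    have e1 : ((E : ℝ) + 1) ^ k = Real.exp (k * Real.log (E + 1)) := by
      rw [mul_comm, Real.exp_mul, Real.exp_log (by positivity), Real.rpow_natCast]
    have e2 : (2 : ℝ) ^ m = Real.exp (m * Real.log 2) := by
      rw [mul_comm, Real.exp_mul, Real.exp_log (by positivity), Real.rpow_natCast]
    rw [e1, e2, ← Real.exp_add, Real.exp_le_exp]
    linarith
  · rw [hPk]
    have e1 : x / (2 * Real.log x) - 1 ≤ k := by
      have := Nat.lt_floor_add_one (x / (2 * Real.log x))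
      rw [← hk] at this
      linarith
    have e2 : x / (4 * Real.log x) ≤ x / (2 * Real.log x) - 1 := by
      have : x / (4 * Real.log x) = x / (2 * Real.log x) / 2 := by
        field_simp
        norm_num
      rw [this]
      linarith
    refine le_trans ?_ (e2.trans e1)
    have e3 : Real.exp (-C₁) / 4 * H ^ θ / Real.log H = x / (4 * Real.log H) := by
      rw [hx]
      field_simp
    rw [e3]
    apply div_le_div_of_nonneg_left (by linarith) (by positivity)
    linarith

end Pool.Agent.J4.H51.Vo
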