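import Mathlib

set_option autoImplicit false

/-!
The pigeonhole principle for integers composed of given primes.
-/

namespace Pool.Agent.J4.H51.Vo

lemma card_divisors_prod (P : Finset ℕ) (hP : ∀ p ∈ P, p.Prime) (E : ℕ) :
    (Nat.divisors ((∏ p ∈ P, p) ^ E)).card = (E + 1) ^ P.card := by
  classical
  induction P using Finset.induction_on with
  | empty => simp
  | insert p P hp ih =>
    have h1 : p.Prime := hP p (Finset.mem_insert_self _ _)
    have h2 := ih fun q hq => hP q (Finset.mem_insert_of_mem hq)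
    rw [Finset.prod_insert hp, mul_pow, Finset.card_insert_of_notMem hp]
    have hcop : Nat.Coprime (p ^ E) ((∏ q ∈ P, q) ^ E) := by
      apply Nat.Coprime.pow
      refine Nat.Coprime.prod_right fun q hq => ?_
      rw [Nat.coprime_primes h1 (hP q (Finset.mem_insert_of_mem hq))]
      rintro rfl
      exact hp hq
    rw [Nat.Coprime.card_divisors_mul hcop, h2, Nat.divisors_prime_pow h1]
    simp [pow_succ, mul_comm]

lemma pig (P : Finset ℕ) (hP : ∀ p ∈ P, p.Prime) (E M : ℕ) (hM : 0 < M) :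
    ∃ Y : Finset ℕ, (∀ y ∈ Y, y ∣ (∏ p ∈ P, p) ^ E) ∧
      (∀ y ∈ Y, ∀ y' ∈ Y, y % M = y' % M) ∧ (E + 1) ^ P.card ≤ Y.card * M := by
  classical
  set W := Nat.divisors ((∏ p ∈ P, p) ^ E) with hW
  have hmaps : ∀ y ∈ W, y % M ∈ Finset.range M := fun y _ => Finset.mem_range.2 (Nat.mod_lt _ hM)
  have h1 := Finset.card_eq_sum_card_fiberwise hmaps
  have h2 : ∃ r ∈ Finset.range M, W.card ≤ (W.filter fun y => y % M = r).card * M := by
    by_contra hcon
    push Not at hcon
    have h3 : ∑ r ∈ Finset.range M, (W.filter fun y => y % M = r).card * M <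
        ∑ r ∈ Finset.range M, W.card :=
      Finset.sum_lt_sum_of_nonempty ⟨0, Finset.mem_range.2 hM⟩ hcon
    rw [← Finset.sum_mul, ← h1, Finset.sum_const, Finset.card_range, smul_eq_mul, mul_comm] at h3
    exact lt_irrefl _ h3
  obtain ⟨r, _, hr⟩ := h2
  refine ⟨W.filter fun y => y % M = r, fun y hy => ?_, fun y hy y' hy' => ?_, ?_⟩
  · exact Nat.dvd_of_mem_divisors (Finset.mem_filter.1 hy).1
  · rw [(Finset.mem_filter.1 hy).2, (Finset.mem_filter.1 hy').2]
  · rw [← card_divisors_prod P hP E]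
    exact hr

end Pool.Agent.J4.H51.Vo
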