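import Pool.Agent.J4.H51.Vo.Cnt
import Pool.Agent.J4.H51.Vo.Par
import Pool.Agent.J4.H51.Vo.Pig

set_option autoImplicit false

/-!
Many points of a torus at which the truncated counting function is small.
-/

namespace Pool.Agent.J4.H51.Vo

open NumberField IsDedekindDomain Height Finset Filter Topology Pool.Agent.W231.V Pool.Agent.W231.G

lemma sz {K : Type*} [Field K] [DecidableEq K] {n : ℕ} (hn : n ≠ 0) (g : MvPolynomial (Fin n) K)
    (hg : g ≠ 0) (a : Fin n → K) (ha : ∀ j, a j ≠ 0) (U : Finset K) (hU1 : 1 ≤ U.card)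
    (hU : 2 * ∑ j, g.degreeOf j ≤ U.card) :
    (U.card : ℝ) ≤ 2 * (((Fintype.piFinset fun j => U.image (a j * ·)).filter
      fun t => MvPolynomial.eval t g ≠ 0).card : ℝ) := by
  classical
  have hcard : ∀ j, (U.image (a j * ·)).card = U.card := fun j =>
    Finset.card_image_of_injective _ (mul_right_injective₀ (ha j))
  have h1 := MvPolynomial.schwartz_zippel_sum_degreeOf hg (fun j => U.image (a j * ·))
  simp only [hcard] at h1
  rw [Finset.prod_const, Finset.card_univ, Fintype.card_fin, ← Finset.sum_div] at h1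
  set Z := (Fintype.piFinset fun j => U.image (a j * ·)).filter fun t => MvPolynomial.eval t g = 0
    with hZ
  have hU0 : (0 : NNRat) < (U.card : NNRat) := by exact_mod_cast hU1
  rw [div_le_iff₀ (pow_pos hU0 n), div_mul_eq_mul_div, le_div_iff₀ hU0] at h1
  have h2 : Z.card * U.card ≤ (∑ j, g.degreeOf j) * U.card ^ n := by exact_mod_cast h1
  have h3 : (2 * Z.card) * U.card ≤ U.card ^ n * U.card := by
    calc (2 * Z.card) * U.card = 2 * (Z.card * U.card) := by ring
      _ ≤ 2 * ((∑ j, g.degreeOf j) * U.card ^ n) := Nat.mul_le_mul_left _ h2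
      _ = (2 * ∑ j, g.degreeOf j) * U.card ^ n := by ring
      _ ≤ U.card * U.card ^ n := Nat.mul_le_mul_right _ hU
      _ = _ := by ring
  have h4 : 2 * Z.card ≤ U.card ^ n := Nat.le_of_mul_le_mul_right h3 hU1
  have h5 : Z.card + ((Fintype.piFinset fun j => U.image (a j * ·)).filter
      fun t => MvPolynomial.eval t g ≠ 0).card = U.card ^ n := by
    rw [hZ, Finset.card_filter_add_card_filter_not, Fintype.card_piFinset]
    simp only [hcard]
    rw [Finset.prod_const, Finset.card_univ, Fintype.card_fin]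
  have h6 : U.card ≤ U.card ^ n := Nat.le_self_pow hn _
  have h7 : U.card ≤ 2 * ((Fintype.piFinset fun j => U.image (a j * ·)).filter
      fun t => MvPolynomial.eval t g ≠ 0).card := by omega
  exact_mod_cast h7

lemma tendsto_scale {c θ : ℝ} (hc : 0 < c) (hθ : 0 < θ) :
    Tendsto (fun H : ℝ => c * H ^ θ / Real.log H) atTop atTop := by
  have h1 : Tendsto (fun H : ℝ => H ^ (θ / 2)) atTop atTop := tendsto_rpow_atTop (by linarith)
  have h2 : ∀ᶠ H : ℝ in atTop, (c * (θ / 2)) * H ^ (θ / 2) ≤ c * H ^ θ / Real.log H := by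
    filter_upwards [eventually_gt_atTop (1 : ℝ)] with H hH
    have hl : 0 < Real.log H := Real.log_pos hH
    rw [le_div_iff₀ hl]
    have h3 : Real.log H ≤ H ^ (θ / 2) / (θ / 2) := Real.log_le_rpow_div (by linarith) (by linarith)
    have h4 : H ^ θ = H ^ (θ / 2) * H ^ (θ / 2) := by
      rw [← Real.rpow_add (by linarith)]
      congr 1
      ring
    have h5 : 0 < H ^ (θ / 2) := Real.rpow_pos_of_pos (by linarith) _
    rw [le_div_iff₀ (by linarith)] at h3
    rw [h4]
    calc c * (θ / 2) * H ^ (θ / 2) * Real.log H = (c * H ^ (θ / 2)) * (Real.log H * (θ / 2)) := by ring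
      _ ≤ (c * H ^ (θ / 2)) * H ^ (θ / 2) := mul_le_mul_of_nonneg_left h3 (by positivity)
      _ = _ := by ring
  exact tendsto_atTop_mono' _ h2 (h1.const_mul_atTop (by positivity))

variable {K : Type*} [Field K] [NumberField K]

theorem main {N n : ℕ} (A : Fin (N + 1) → Fin n → ℕ) (F : MvPolynomial (Fin (N + 1)) K) (d : ℕ)
    (hFd : F.IsHomogeneous d) (a : Fin n → K) (ha : ∀ j, a j ≠ 0) (μ : ℕ) (hμ : 1 ≤ μ)
    (f : MvPolynomial (Fin n) K) (hfF : ∀ t, MvPolynomial.eval t f = MvPolynomial.eval (pt A t) F)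
    (hf0 : f ≠ 0)
    (hf : f ∈ (Ideal.span (Set.range fun j => MvPolynomial.X j - MvPolynomial.C (a j))) ^ μ) :
    ∃ c : ℝ, 0 < c ∧ ∀ G : MvPolynomial (Fin n) K, G ≠ 0 → ∃ B₀ : ℝ, ∀ B : ℝ, B₀ ≤ B →
      ∃ T : Finset (Fin n → K),
        Real.exp (c * Real.log B ^ ((μ : ℝ) / (μ + 1)) / Real.log (Real.log B)) ≤ T.card ∧
        ∀ t ∈ T, (∀ j, t j ≠ 0) ∧ MvPolynomial.eval (pt A t) F ≠ 0 ∧ MvPolynomial.eval t G ≠ 0 ∧
          logHeight (pt A t) ≤ Real.log B ∧
          {v : HeightOneSpectrum (𝓞 K) | Meets v F d (pt A t)}.Finite ∧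
          ∀ T' : Finset (HeightOneSpectrum (𝓞 K)), (∀ v ∈ T', Meets v F d (pt A t)) →
            ∑ v ∈ T', ell v ≤ d * logHeight (pt A t) -
              c * Real.log B ^ ((μ : ℝ) / (μ + 1)) / Real.log (Real.log B) := by
  classical
  -- `n ≠ 0`
  have hn : n ≠ 0 := by
    rintro rfl
    apply hf0
    have h1 : (Set.range fun j : Fin 0 => MvPolynomial.X j - MvPolynomial.C (a j)) = ∅ :=
      Set.range_eq_empty _
    rw [h1, Ideal.span_empty, Ideal.bot_pow (by omega)] at hf
    exact (Submodule.mem_bot _).1 hf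
  set θ : ℝ := (μ : ℝ) / (μ + 1) with hθ
  have hμ1 : (1 : ℝ) ≤ μ := by exact_mod_cast hμ
  have hθ0 : 0 < θ := by positivity
  obtain ⟨C, hC⟩ := count A F d hFd a ha μ ⟨f, hfF, hf⟩
  obtain ⟨M, hM⟩ := height_pt_le (K := K) A
  obtain ⟨c₀, hc₀, hpar⟩ := params μ hμ 2 (by norm_num)
  have hW : (1 : ℝ) ≤ (totalWeight K : ℝ) := by exact_mod_cast NumberField.totalWeight_pos K
  have hn1 : (1 : ℝ) ≤ n := by exact_mod_cast Nat.one_le_iff_ne_zero.2 hn
  set W : ℝ := (totalWeight K : ℝ) with hWdef
  set L : ℝ := 4 * (M + 1) * n * W with hL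
  have hL1 : 1 ≤ L := by
    have hM0 : (0 : ℝ) ≤ M := Nat.cast_nonneg M
    have e1 : 1 ≤ (n : ℝ) * W := by nlinarith
    have e2 : (1 : ℝ) ≤ 4 * (M + 1) := by linarith
    rw [hL, mul_assoc]
    nlinarith
  have hL0 : 0 < L := by linarith
  set Ca : ℝ := ∑ j, logHeight₁ (a j) with hCa
  refine ⟨c₀ * L ^ (-θ) / 2, by positivity, fun G hG => ?_⟩
  set c : ℝ := c₀ * L ^ (-θ) / 2 with hc
  have hg0 : f * G ≠ 0 := mul_ne_zero hf0 hG
  -- the conditions on `B`
  have hHt : Tendsto (fun B : ℝ => Real.log B / L) atTop atTop :=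
    Real.tendsto_log_atTop.atTop_div_const hL0
  have ev1 := hHt.eventually hpar
  have ev2 := (hHt.eventually ((tendsto_scale hc₀ hθ0).eventually
    (eventually_ge_atTop (max (max C 2) (2 * ((∑ j, (f * G).degreeOf j : ℕ) : ℝ))))))
  have ev3 := Real.tendsto_log_atTop.eventually (eventually_ge_atTop (2 * (M * Ca)))
  have ev4 := hHt.eventually (eventually_gt_atTop (1 : ℝ))
  obtain ⟨B₀, hB₀⟩ := eventually_atTop.1 (ev1.and (ev2.and (ev3.and ev4)))
  refine ⟨B₀, fun B hB => ?_⟩
  obtain ⟨h1, h2, h3, h4⟩ := hB₀ B hB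
  set H : ℝ := Real.log B / L with hH
  obtain ⟨P, E, m, hP, hP1, hE, hPm, hcard, hk⟩ := h1
  set k : ℕ := P.card with hkdef
  have hkC : C ≤ k := (le_max_left _ _).trans ((le_max_left _ _).trans (h2.trans hk))
  have hk2 : (2 : ℝ) ≤ k := (le_max_right _ _).trans ((le_max_left _ _).trans (h2.trans hk))
  have hkD : 2 * ((∑ j, (f * G).degreeOf j : ℕ) : ℝ) ≤ k := (le_max_right _ _).trans (h2.trans hk)
  -- the scale
  have hBL : Real.log B = L * H := by rw [hH]; field_simp
  have hH0 : 0 < H := by linarith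
  have hscale : c * Real.log B ^ θ / Real.log (Real.log B) ≤ k / 2 := by
    have e1 : 0 < Real.log H := Real.log_pos h4
    have e2 : Real.log H ≤ Real.log (Real.log B) := by
      rw [hBL]
      exact Real.log_le_log hH0 (by nlinarith)
    have e3 : c * Real.log B ^ θ = c₀ * H ^ θ / 2 := by
      rw [hBL, Real.mul_rpow hL0.le hH0.le, hc]
      have e4 : L ^ (-θ) * L ^ θ = 1 := by
        rw [← Real.rpow_add hL0]
        simp
      calc _ = c₀ * (L ^ (-θ) * L ^ θ) * H ^ θ / 2 := by ring
        _ = _ := by rw [e4]; ring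
    rw [e3]
    have e5 : c₀ * H ^ θ / 2 / Real.log (Real.log B) ≤ c₀ * H ^ θ / 2 / Real.log H :=
      div_le_div_of_nonneg_left (by positivity) e1 e2
    have e6 : c₀ * H ^ θ / 2 / Real.log H = (c₀ * H ^ θ / Real.log H) / 2 := by ring
    rw [e6] at e5
    linarith
  -- the integers
  set Q : ℕ := ∏ p ∈ P, p with hQ
  have hQodd : Odd Q := by
    rw [hQ]
    refine Finset.prod_induction _ Odd (fun x y hx hy => hx.mul hy) odd_one fun p hp => ?_
    exact (hP p hp).1.odd_of_ne_two (hP p hp).2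
  have hlogQ : Real.log Q = ∑ p ∈ P, Real.log p := by
    rw [hQ]
    push_cast
    rw [Real.log_prod]
    intro p hp
    exact_mod_cast (hP p hp).1.ne_zero
  have hQ0 : Q ≠ 0 := by rintro h; rw [h] at hQodd; exact absurd hQodd (by decide)
  obtain ⟨Y, hY1, hY2, hY3⟩ := pig P (fun p hp => (hP p hp).1) E (2 ^ m) (by positivity)
  have hYcard : Real.exp k ≤ Y.card := by
    have e1 : ((E : ℝ) + 1) ^ k ≤ Y.card * 2 ^ m := by exact_mod_cast hY3
    have e2 := hcard.trans e1
    exact le_of_mul_le_mul_right e2 (by positivity)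
  have hYpos : 0 < Y.card := by
    have : (0 : ℝ) < Y.card := (Real.exp_pos _).trans_le hYcard
    exact_mod_cast this
  obtain ⟨y₀, hy₀⟩ := Finset.card_pos.1 hYpos
  have hYne : ∀ y ∈ Y, y ≠ 0 := by
    intro y hy h
    have := hY1 y hy
    rw [h, zero_dvd_iff] at this
    exact pow_ne_zero E hQ0 this
  have hYlog : ∀ y ∈ Y, Real.log y ≤ H := by
    intro y hy
    have e1 : y ≤ Q ^ E := Nat.le_of_dvd (Nat.pos_of_ne_zero (pow_ne_zero E hQ0)) (hY1 y hy)
    have e2 : (y : ℝ) ≤ (Q : ℝ) ^ E := by exact_mod_cast e1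
    have e3 : 0 < (y : ℝ) := by exact_mod_cast Nat.pos_of_ne_zero (hYne y hy)
    refine (Real.log_le_log e3 e2).trans ?_
    rw [Real.log_pow, hlogQ]
    exact hE
  set U : Finset K := Y.image (fun y : ℕ => (y : K) / (y₀ : K)) with hU
  have hy₀K : (y₀ : K) ≠ 0 := by exact_mod_cast hYne y₀ hy₀
  have hUcard : U.card = Y.card := by
    rw [hU]
    refine Finset.card_image_of_injective _ fun y y' h => ?_
    have h' : (y : K) = y' := by
      have h2 : (y : K) / (y₀ : K) = (y' : K) / (y₀ : K) := h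
      field_simp at h2
      exact h2
    exact_mod_cast h'
  -- the units
  have hunit : ∀ y ∈ Y, ∀ v : HeightOneSpectrum (𝓞 K), fv v (Q : K) = 1 → fv v (y : K) = 1 := by
    intro y hy v hv
    obtain ⟨z, hz⟩ := hY1 y hy
    have e1 : fv v (y : K) * fv v (z : K) = 1 := by
      rw [← map_mul]
      have e2 : ((Q ^ E : ℕ) : K) = (y : K) * (z : K) := by rw [hz]; push_cast; rfl
      rw [← e2]
      push_cast
      rw [map_pow, hv, one_pow]
    have e3 := fv_nat v y (K := K)
    have e4 := fv_nat v z (K := K)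
    have e5 := (fv v).nonneg (y : K)
    nlinarith
  -- the points
  refine ⟨(Fintype.piFinset fun j => U.image (a j * ·)).filter
      fun t => MvPolynomial.eval t (f * G) ≠ 0, ?_, fun t ht => ?_⟩
  · have hUk : Real.exp k ≤ U.card := by rw [hUcard]; exact hYcard
    have hke : (k : ℝ) ≤ Real.exp k := by
      have := Real.add_one_le_exp (k : ℝ)
      linarith
    have e1 := sz hn (f * G) hg0 a ha U (by rw [hUcard]; exact hYpos) (by
      have : 2 * ((∑ j, (f * G).degreeOf j : ℕ) : ℝ) ≤ U.card := hkD.trans (hke.trans hUk)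
      exact_mod_cast this)
    have e2 : Real.exp (c * Real.log B ^ θ / Real.log (Real.log B)) ≤ Real.exp (k / 2) :=
      Real.exp_le_exp.2 hscale
    have e3 : 2 * Real.exp ((k : ℝ) / 2) ≤ Real.exp k := by
      have e4 : Real.exp (k : ℝ) = Real.exp ((k : ℝ) / 2) * Real.exp ((k : ℝ) / 2) := by
        rw [← Real.exp_add]
        congr 1
        ring
      have e5 : 2 ≤ Real.exp ((k : ℝ) / 2) := by
        have := Real.add_one_le_exp ((k : ℝ) / 2)
        linarith
      rw [e4]
      have := Real.exp_pos ((k : ℝ) / 2)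
      nlinarith
    linarith
  · rw [Finset.mem_filter, Fintype.mem_piFinset] at ht
    obtain ⟨ht1, ht2⟩ := ht
    rw [map_mul] at ht2
    have hff : MvPolynomial.eval t f ≠ 0 := left_ne_zero_of_mul ht2
    have hGG : MvPolynomial.eval t G ≠ 0 := right_ne_zero_of_mul ht2
    have hex : ∀ j, ∃ y ∈ Y, t j = a j * ((y : K) / y₀) := by
      intro j
      obtain ⟨u, hu, hu2⟩ := Finset.mem_image.1 (ht1 j)
      obtain ⟨y, hy, hy2⟩ := Finset.mem_image.1 hu
      exact ⟨y, hy, by rw [← hu2, ← hy2]⟩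
    choose y hyY hty using hex
    set u : Fin n → K := fun j => (y j : K) / y₀ with hu
    have htu : t = fun j => a j * u j := funext hty
    have hyK : ∀ j, (y j : K) ≠ 0 := fun j => by exact_mod_cast hYne _ (hyY j)
    have hune : ∀ j, u j ≠ 0 := fun j => div_ne_zero (hyK j) hy₀K
    have htne : ∀ j, t j ≠ 0 := fun j => by rw [hty j]; exact mul_ne_zero (ha j) (hune j)
    have hF0 : MvPolynomial.eval (pt A t) F ≠ 0 := by rw [← hfF]; exact hff
    refine ⟨htne, hF0, hGG, ?_, ?_⟩
    · -- the height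
      have e1 : ∀ j, logHeight₁ (t j) ≤ logHeight₁ (a j) + 2 * W * H := by
        intro j
        rw [hty j]
        have q1 := logHeight₁_mul_le (a j) ((y j : K) / y₀)
        have q2 := logHeight₁_mul_le (y j : K) (y₀ : K)⁻¹
        rw [← div_eq_mul_inv, logHeight₁_inv,
          logHeight₁_nat (Nat.one_le_iff_ne_zero.2 (hYne _ (hyY j))),
          logHeight₁_nat (Nat.one_le_iff_ne_zero.2 (hYne _ hy₀))] at q2
        have q3 : (totalWeight K : ℝ) * Real.log (y j) ≤ W * H :=
          mul_le_mul_of_nonneg_left (hYlog _ (hyY j)) (by linarith)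
        have q4 : (totalWeight K : ℝ) * Real.log y₀ ≤ W * H :=
          mul_le_mul_of_nonneg_left (hYlog _ hy₀) (by linarith)
        linarith
      have e2 : ∑ j, logHeight₁ (t j) ≤ Ca + n * (2 * W * H) := by
        refine (Finset.sum_le_sum fun j _ => e1 j).trans (le_of_eq ?_)
        rw [Finset.sum_add_distrib, Finset.sum_const, Finset.card_univ, Fintype.card_fin,
          nsmul_eq_mul]
      have e3 := hM t
      have hM0 : (0 : ℝ) ≤ M := Nat.cast_nonneg M
      have e4 : (M : ℝ) * ∑ j, logHeight₁ (t j) ≤ M * (Ca + n * (2 * W * H)) :=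
        mul_le_mul_of_nonneg_left e2 hM0
      have e5 : (M : ℝ) * (n * (2 * W * H)) ≤ Real.log B / 2 := by
        rw [hBL, hL]
        have : 0 ≤ (n : ℝ) * W * H := by positivity
        nlinarith
      have e6 : (M : ℝ) * (Ca + n * (2 * W * H)) = M * Ca + M * (n * (2 * W * H)) := by ring
      linarith
    · -- the counting function
      have hcnt := hC Q m u hQodd (by
        intro v hv j
        rw [hu]
        simp only [map_div₀]
        rw [hunit _ (hyY j) v hv, hunit _ hy₀ v hv, div_one]) (by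
        intro v hv j
        -- `Q` is a unit over two
        have hQv : fv v (Q : K) = 1 := by
          obtain ⟨i, hi⟩ := hQodd
          by_contra hne
          have hlt : fv v (Q : K) < 1 := lt_of_le_of_ne (fv_nat v Q) hne
          have e : (1 : K) = (Q : K) + -(2 * (i : K)) := by
            rw [hi]; push_cast; ring
          have h3 := fv_na v (Q : K) (-(2 * (i : K)))
          rw [← e, map_one, map_neg_eq_map, map_mul] at h3
          have h4 : fv v (2 : K) * fv v (i : K) < 1 := by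
            have := fv_nat v i (K := K)
            have h5 := (fv v).nonneg (2 : K)
            nlinarith
          exact absurd h3 (not_le.2 (max_lt hlt h4))
        have e1 : u j - 1 = ((y j : K) - y₀) / y₀ := by
          rw [hu]
          field_simp
        rw [e1, map_div₀, hunit _ hy₀ v hQv, div_one]
        have e2 : ((2 ^ m : ℕ) : ℤ) ∣ (y j : ℤ) - y₀ := by
          have := hY2 _ (hyY j) _ hy₀
          exact (Nat.modEq_iff_dvd.1 (show y₀ ≡ y j [MOD 2 ^ m] from this.symm))
        obtain ⟨z, hz⟩ := e2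
        have e3 : (y j : K) - y₀ = (2 : K) ^ m * (z : K) := by
          have := congrArg (Int.cast : ℤ → K) hz
          push_cast at this
          exact this
        rw [e3, map_mul, map_pow]
        refine mul_le_of_le_one_right (pow_nonneg ((fv v).nonneg _) _) ?_
        exact fv_int_le v z) (by rw [← htu]; exact hF0)
      rw [← htu] at hcnt
      refine ⟨hcnt.1, fun T' hT' => ?_⟩
      refine (hcnt.2 T' hT').trans ?_
      have e1 : Real.log Q - μ * (m * Real.log 2) ≤ -(2 * k) := by
        rw [hlogQ]; linarith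
      have e2 : (totalWeight K : ℝ) * (Real.log Q - μ * (m * Real.log 2)) ≤ -(2 * k) := by
        have q1 : W * (Real.log Q - μ * (m * Real.log 2)) ≤ W * (-(2 * k)) :=
          mul_le_mul_of_nonneg_left e1 (by linarith)
        have q2 : W * (-(2 * (k : ℝ))) ≤ 1 * (-(2 * k)) := by nlinarith
        linarith
      have e3 : (0 : ℝ) ≤ k := Nat.cast_nonneg k
      linarith

end Pool.Agent.J4.H51.Vo
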